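import Pool.Agent.W2helper22.MG.Stm

/-!
# Project MG (helper22), piece REALM: a monotone program gives a circuit without NOT gates
-/

set_option autoImplicit false

namespace Pool.Agent.W2helper92.MG

open Finset Pool.Agent.W2helper86.LG Pool.Agent.W2helper22.AL Pool.Agent.W2helper22.MG

variable {m : ℕ}

lemma eval_congr {g : Gate m} {i : ℕ} (hb : g.Below i) (x : Fin m → Bool) {v v' : ℕ → Bool}
    (h : ∀ j < i, v j = v' j) : g.eval x v = g.eval x v' := by
  cases g with
  | const b => rfl
  | inp j => rfl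
  | not a => simp only [Gate.Below] at hb; simp only [Gate.eval, h a hb]
  | and a b => simp only [Gate.Below] at hb; simp only [Gate.eval, h a hb.1, h b hb.2]
  | or a b => simp only [Gate.Below] at hb; simp only [Gate.eval, h a hb.1, h b hb.2]

/-- the lines `gt` with the values `v` compute the functions of the list -/
def Rz (L : List (((Fin m → Bool) → Bool) × ℕ)) (gt : ℕ → Gate m)
    (v : (Fin m → Bool) → ℕ → Bool) : Prop :=
  (∀ i < L.length, (gt i).Below i ∧ (∀ a, gt i ≠ Gate.not a) ∧
    ∀ x, v x i = (gt i).eval x (v x)) ∧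
  ∀ q ∈ L, ∃ i < L.length, ∀ x, v x i = q.1 x

lemma extend {L : List (((Fin m → Bool) → Bool) × ℕ)} {gt : ℕ → Gate m}
    {v : (Fin m → Bool) → ℕ → Bool} (h : Rz L gt v) (g : Gate m) (hb : g.Below L.length)
    (hn : ∀ a, g ≠ Gate.not a) (q : ((Fin m → Bool) → Bool) × ℕ)
    (hq : ∀ x, g.eval x (v x) = q.1 x) :
    ∃ (gt' : ℕ → Gate m) (v' : (Fin m → Bool) → ℕ → Bool), Rz (q :: L) gt' v' := by
  obtain ⟨h1, h2⟩ := h
  refine ⟨Function.update gt L.length g,
    fun x => Function.update (v x) L.length (g.eval x (v x)), ?_, ?_⟩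
  · intro i hi
    rw [List.length_cons] at hi
    have hlt : ∀ x, ∀ j < L.length, v x j =
        Function.update (v x) L.length (g.eval x (v x)) j := fun x j hj => by
      rw [Function.update_of_ne (by omega)]
    by_cases hiL : i = L.length
    · subst hiL
      rw [Function.update_self]
      refine ⟨hb, hn, fun x => ?_⟩
      simp only
      rw [Function.update_self]
      exact eval_congr hb x (hlt x)
    · have hi' : i < L.length := by omega
      obtain ⟨h3, h4, h5⟩ := h1 i hi'
      rw [Function.update_of_ne hiL]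
      refine ⟨h3, h4, fun x => ?_⟩
      simp only
      rw [Function.update_of_ne hiL, h5 x]
      exact eval_congr h3 x (fun j hj => hlt x j (by omega))
  · intro q' hq'
    rcases List.mem_cons.1 hq' with rfl | hq'
    · refine ⟨L.length, by simp, fun x => ?_⟩
      simp only
      rw [Function.update_self]
      exact hq x
    · obtain ⟨i, hi, h3⟩ := h2 q' hq'
      refine ⟨i, by rw [List.length_cons]; omega, fun x => ?_⟩
      simp only
      rw [Function.update_of_ne (by omega)]
      exact h3 x

lemma real_aux {L : List (((Fin m → Bool) → Bool) × ℕ)} {c : ℕ → ℕ} (h : Prog L c)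
    (hc : ∀ l, c l ≤ 0) : ∃ (gt : ℕ → Gate m) (v : (Fin m → Bool) → ℕ → Bool), Rz L gt v := by
  induction h with
  | nil => exact ⟨fun _ => Gate.const true, fun _ _ => true, by simp [Rz]⟩
  | inp p l _ ih =>
    obtain ⟨gt, v, h⟩ := ih hc
    exact extend h (Gate.inp p) trivial (fun a => by simp) _ (fun x => rfl)
  | const b l _ ih =>
    obtain ⟨gt, v, h⟩ := ih hc
    exact extend h (Gate.const b) trivial (fun a => by simp) _ (fun x => rfl)
  | and l _ hf hg _ _ ih =>
    obtain ⟨gt, v, h⟩ := ih hc
    obtain ⟨i, hi, h1⟩ := h.2 _ hf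
    obtain ⟨j, hj, h2⟩ := h.2 _ hg
    exact extend h (Gate.and i j) ⟨hi, hj⟩ (fun a => by simp) _ (fun x => by
      simp only [Gate.eval, h1 x, h2 x])
  | or l _ hf hg _ _ ih =>
    obtain ⟨gt, v, h⟩ := ih hc
    obtain ⟨i, hi, h1⟩ := h.2 _ hf
    obtain ⟨j, hj, h2⟩ := h.2 _ hg
    exact extend h (Gate.or i j) ⟨hi, hj⟩ (fun a => by simp) _ (fun x => by
      simp only [Gate.eval, h1 x, h2 x])
  | not l _ _ _ _ =>
    exfalso
    have := hc l
    rw [Function.update_self] at this
    omega

theorem realm : P_REALM := by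
  intro m s f hf
  obtain ⟨L, c', hL, -, hs, hc, hF⟩ := hf
  obtain ⟨i0, -, hmem⟩ := hF (f, 0) ⟨rfl, rfl⟩
  obtain ⟨gt, v, h1, h2⟩ := real_aux hL hc
  obtain ⟨i, hi, h3⟩ := h2 _ hmem
  let C : Circuit m := ⟨L.length, gt, i, fun j hj => (h1 j hj).1, hi⟩
  refine ⟨C, fun j hj a => (h1 j hj).2.1 a, ?_, fun x => ?_⟩
  · refine le_trans ?_ hs
    unfold Circuit.size
    calc ∑ i ∈ range C.len, (C.gate i).weight ≤ ∑ i ∈ range C.len, 1 := by
          refine Finset.sum_le_sum fun i _ => ?_
          cases C.gate i <;> simp [Gate.weight]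
      _ = L.length := by simp [C]
  · have key : ∀ n, n < C.len → C.val x n = v x n := by
      intro n
      induction n using Nat.strong_induction_on with
      | _ n ih =>
        intro hn
        rw [C.val_eq x hn, (h1 n hn).2.2 x]
        exact eval_congr (h1 n hn).1 x (fun j hj => ih j hj (lt_trans hj hn))
    show C.val x i = f x
    rw [key i hi, h3 x]

end Pool.Agent.W2helper92.MG
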